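import Mathlib
import Pool.Agent.W245.EB.Seq

/-!
# Periods of one-motives of Kummer type, multiplicative and elliptic: infinite sequences without
polynomial relations of prescribed degrees

The numbers `x_i` below are, when `v_i = 0`, periods of the one-motives `[ℤ → 𝔾_m]` and `[ℤ → E_i]`
over the algebraic numbers (logarithms and elliptic logarithms of algebraic points); the space `W`
of coefficients may be spanned by the monomials of bounded degree in the periods of any given
motive.

The proof contains a complete formalization of Baker's theorem (homogeneous form; starting module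
`Pool.Agent.H297R2.BakerThm`) and of its elliptic analogue (Masser, Bertrand and Masser;
`Pool.Agent.W245.EB.Red`), by the theorem of Schneider and Lang on Cartesian products.
-/

open scoped PeriodPair

namespace Pool.Agent.Results.MP_5d33ca_ag.KummerEllipticSequences

/-- Logarithms of algebraic numbers, linearly independent over `ℚ`. -/
def LogSystem {R : ℕ} (w : Fin R → ℂ) : Prop :=
  (∀ j, IsAlgebraic ℚ (Complex.exp (w j))) ∧ LinearIndependent ℚ w

/-- `α` belongs to the field `k = End(ℂ / Ω) ⊗ ℚ`: some multiple `m α`, `m ≥ 1`, maps the lattice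
`Ω` to itself. -/
def IsMult (L : PeriodPair) (α : ℂ) : Prop :=
  ∃ m : ℕ, 0 < m ∧ ∀ ω ∈ L.lattice, (m : ℂ) * α * ω ∈ L.lattice

/-- The lattice has algebraic invariants, and the `w_j` are elliptic logarithms of algebraic points
(`w_j` is a period or `℘(w_j)` is algebraic), linearly independent over the field `k` of the
lattice. -/
def EllipticSystem (L : PeriodPair) {R : ℕ} (w : Fin R → ℂ) : Prop :=
  IsAlgebraic ℚ L.g₂ ∧ IsAlgebraic ℚ L.g₃ ∧
    (∀ j, w j ∈ L.lattice ∨ IsAlgebraic ℚ (℘[L] (w j))) ∧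
    ∀ α : Fin R → ℂ, (∀ j, IsMult L (α j)) → ∑ j, α j * w j = 0 → ∀ j, α j = 0

/-- **Main result.** -/
theorem result (N : ℕ) (D R : ℕ → ℕ) (hR : ∀ i, R i = N * ∏ l ∈ Finset.range (i + 1), (D l + 1))
    (w : (i : ℕ) → Fin (R i) → ℂ)
    (hw : ∀ i, LogSystem (w i) ∨ ∃ L : PeriodPair, EllipticSystem L (w i))
    (W : Submodule (algebraicClosure ℚ ℂ) ℂ) (hfin : Module.Finite (algebraicClosure ℚ ℂ) W)
    (hW : Module.finrank (algebraicClosure ℚ ℂ) W ≤ N) (v : ℕ → ℂ)
    (T : (i : ℕ) → Fin (R i) → Finset ℤ) (hT : ∀ i j, R i * D i < (T i j).card) :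
    ∃ m : (i : ℕ) → Fin (R i) → ℤ, (∀ i j, m i j ∈ T i j) ∧
      ∀ (k : ℕ) (Q : MvPolynomial (Fin k) ℂ), (∀ i, Q.degreeOf i ≤ D i) → (∀ s, Q.coeff s ∈ W) →
        MvPolynomial.eval (fun i : Fin k => v i + ∑ j, (m i j : ℂ) * w i j) Q = 0 → Q = 0 := by
  classical
  have hRR : R = Pool.Agent.W245.EB.RR N D := by
    funext i
    exact hR i
  subst hRR
  have hind : ∀ i, LinearIndependent (algebraicClosure ℚ ℂ) (w i) := by
    intro i
    rcases hw i with h | ⟨L, h2, h3, h4, h5⟩
    · exact Pool.Agent.W245.EB.LogFam.indep ⟨h.1, h.2⟩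
    · refine Pool.Agent.W245.EB.EllFam.indep h2 h3 ⟨h4, fun α hα h0 => ?_⟩
      funext j
      exact h5 α hα h0 j
  have hac : IsAlgClosed (algebraicClosure ℚ ℂ) := (algebraicClosure.isAlgClosure ℚ ℂ).isAlgClosed
  have hinj : Function.Injective (fun z : ℤ => (z : algebraicClosure ℚ ℂ)) := Int.cast_injective
  obtain ⟨m, hm, hno⟩ := Pool.Agent.W245.EB.seq_noRel N D W hfin hW v w hind
    (fun i j => (T i j).map ⟨_, hinj⟩) (fun i j => by rw [Finset.card_map]; exact hT i j)
  have hm' : ∀ i j, ∃ z : ℤ, z ∈ T i j ∧ (z : algebraicClosure ℚ ℂ) = m i j := by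
    intro i j
    obtain ⟨z, hz, hzm⟩ := Finset.mem_map.1 (hm i j)
    exact ⟨z, hz, hzm⟩
  choose z hz hzm using hm'
  refine ⟨z, hz, fun k Q hQ1 hQ2 hQ3 => ?_⟩
  apply hno k Q hQ1 hQ2
  rw [← hQ3]
  congr 2
  funext i
  congr 1
  apply Finset.sum_congr rfl
  intro j _
  rw [← hzm]
  rfl

end Pool.Agent.Results.MP_5d33ca_ag.KummerEllipticSequences
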