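import Pool.Agent.W254.HP.Gen

/-!
# Relations between the periods of Kummer motives, with coefficients in arbitrary polynomial rings

For the motive `H^1(G_m, {1, α_1, ..., α_N})` the period conjecture says that the periods `2πi`,
`log α_1`, ..., `log α_N` are algebraically independent if the `α_j` are multiplicatively
independent algebraic numbers.

Let `l_i`, `i ∈ ι`, be such logarithms, linearly independent over `ℚ` (the family may be infinite,
and may contain `2πi`), and let `t_1, ..., t_n` be arbitrary complex numbers, for example some of the
periods `2πi`, `log α_j` themselves, or any other periods.  We prove that outside a set of at most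
`(4D)^n - 2^n` indices `i` the number `1` and the periods `l_i` are linearly independent over the set of
all values `P(t)` of polynomials with algebraic coefficients of degree at most `D` in each variable.

Proof.  The hyperplane case of the linear subgroup theorem (Waldschmidt, Roy) bounds by `d (d - 1)`
the dimension of the space of relations `∑ x_u a_u = 0`, where the `a_u` are linear forms in `1` and
logarithms and the `x_u` are `d` numbers linearly independent over the algebraic numbers.  Let
`X(N)` be the space of values at `t` of polynomials of degree less than `N` in each variable.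
Then `dim X(2D) ≤ 2^n dim X(D)` for arbitrary `t`.  A family of `r` relations of degree at most `D`,
linearly independent over `ℂ`, gives `r dim X(D)` relations with coefficients in `X(2D)` which are
independent over the algebraic numbers.  So `r dim X(D) ≤ dim X(2D) (dim X(2D) - 1)`.
-/

set_option autoImplicit false

namespace Pool.Agent.Results.MP_5d33ca_ag.KummerPeriods

open MvPolynomial

/-- **Main result.** -/
theorem result (n D : ℕ) (t : Fin n → ℂ) (ι : Type) (l : ι → ℂ)
    (hl : ∀ i, IsAlgebraic ℚ (Complex.exp (l i))) (hli : LinearIndependent ℚ l) :
    ∃ E : Finset ι, E.card ≤ (4 * D) ^ n - 2 ^ n ∧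
      ∀ (P₀ : MvPolynomial (Fin n) (algebraicClosure ℚ ℂ))
        (P : ι →₀ MvPolynomial (Fin n) (algebraicClosure ℚ ℂ)),
        (∀ m ∈ P₀.support, ∀ j, m j ≤ D) → (∀ i, ∀ m ∈ (P i).support, ∀ j, m j ≤ D) →
        (∀ i ∈ E, P i = 0) → aeval t P₀ + P.sum (fun i Q => aeval t Q * l i) = 0 →
        aeval t P₀ = 0 ∧ ∀ i, aeval t (P i) = 0 :=
  Pool.Agent.W254.HP.gen_logs t D l hl hli

end Pool.Agent.Results.MP_5d33ca_ag.KummerPeriods
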