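import Pool.Agent.W519.M.Alg

/-!
# The period torsor of one-motives: periods of all three kinds

Let `K` be the field of algebraic numbers and let `M = [ℤ^J → G] ⊕ [ℤ^Λ → 𝔾_m^I]` be a one-motive
over `K`, where `G` is an extension of an abelian variety `A = A_1 × ... × A_n` by the torus
`𝔾_m^I` and where the `A_k` are pairwise non-isogenous and have real multiplication by totally real
fields `E_k` of degree `dim A_k` (elliptic curves without complex multiplication, Hilbert-Blumenthal
abelian varieties). Let `S` be the set of all embeddings of the fields `E_k`. In suitable bases, the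
comparison isomorphism of `M` is the block matrix

  `((2πi, ξ, lam, lg), (0, g, U, 0), (0, 0, 1, 0), (0, 0, 0, 1))`

where `g s` is the two by two matrix of the periods and quasi-periods of the eigendifferentials
with eigenvalue `s`, `ξ` consists of the periods of the differentials of the third kind, `U`
consists of the abelian logarithms, of the first and second kind, of the points given by `J`, `lam`
consists of their logarithms of the third kind and `lg` consists of logarithms of algebraic numbers.

We prove: if the numbers `1`, `2πi`, `lg`, `g`, `U` and `ξ g⁻¹` are linearly independent over `K`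
(this is a theorem of Wüstholz if the points and the extension are sufficiently general),
and `det (g s)` is an algebraic multiple of `2πi` (the relation of Legendre), then the smallest
closed subgroup scheme of `GL_N` over `K`, a translate of which by a `K`-rational matrix contains
the comparison isomorphism, is the full group of all block matrices

  `((d, q, z, l), (0, h, u, 0), (0, 0, 1, 0), (0, 0, 0, 1))`,    `det (h s) = d`,

that is, the motivic Galois group. No hypothesis is made on the numbers `lam`.
-/

namespace Pool.Agent.Results.MP_5d33ca_ag.OneMotiveTorsors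

open Matrix Pool.Agent.W519.M

/-- The complex matrix `P` is the product of a `K`-rational invertible matrix and of a complex point
of the closed subgroup scheme given by `F`. -/
def InTranslate {K : Type} [Field K] [Algebra K ℂ] {N : Type} [Fintype N] [DecidableEq N]
    (F : Set (MvPolynomial (N × N) K)) (P : Matrix N N ℂ) : Prop :=
  ∃ (A : GL N K) (h : GL N ℂ), h ∈ points F ℂ ∧
    P = (A : Matrix N N K).map (algebraMap K ℂ) * (h : Matrix N N ℂ)

/-- The group `motGroup I S J Λ` is the group of complex points of a closed subgroup scheme over `K`,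
a translate of this by a `K`-rational matrix contains the comparison isomorphism, and all closed
subgroup schemes with this property contain `motGroup I S J Λ`. -/
theorem result {K : Type} [Field K] [IsAlgClosed K] [CharZero K] [Algebra K ℂ]
    {I S J Λ : Type} [Fintype I] [Fintype S] [Nonempty S] [Fintype J] [Fintype Λ]
    [DecidableEq I] [DecidableEq S] [DecidableEq J] [DecidableEq Λ]
    (g : S → Matrix (Fin 2) (Fin 2) ℂ) (ξ : Matrix I (Fin 2 × S) ℂ)
    (U : Matrix (Fin 2 × S) J ℂ) (lam : Matrix I J ℂ) (lg : Matrix I Λ ℂ)
    (hdet : ∀ s, ∃ c : K, c ≠ 0 ∧ (g s).det = algebraMap K ℂ c * (2 * Real.pi * Complex.I))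
    (hlin : LinearIndependent K (fam (2 * Real.pi * Complex.I) g ξ U lg)) :
    ∃ F₀ : Set (MvPolynomial ((I ⊕ ((Fin 2 × S) ⊕ (J ⊕ Λ))) ×
      (I ⊕ ((Fin 2 × S) ⊕ (J ⊕ Λ)))) K),
      IsSubgroupScheme F₀ ∧ points F₀ ℂ = motGroup I S J Λ ∧
      InTranslate F₀ (blk (2 * Real.pi * Complex.I) g ξ U lam lg) ∧
      ∀ F : Set (MvPolynomial ((I ⊕ ((Fin 2 × S) ⊕ (J ⊕ Λ))) ×
        (I ⊕ ((Fin 2 × S) ⊕ (J ⊕ Λ)))) K),
        IsSubgroupScheme F → InTranslate F (blk (2 * Real.pi * Complex.I) g ξ U lam lg) →
          motGroup I S J Λ ⊆ points F ℂ := by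
  have hp : (2 * Real.pi * Complex.I : ℂ) ≠ 0 := Complex.two_pi_I_ne_zero
  obtain ⟨s₀⟩ := ‹Nonempty S›
  have : Nonempty S := ⟨s₀⟩
  refine ⟨F0 K I S J Λ s₀, isSubgroupScheme_F0 s₀, points_motGroup s₀, ?_, ?_⟩
  · obtain ⟨A, m, h, u, h1, h2, h3⟩ := exists_mot (K := K) hp hdet ξ U lam lg
    refine ⟨A, m, ?_, ?_⟩
    · rw [points_motGroup]
      exact ⟨_, h, ξ, u, lam, lg, hp, h1, h2⟩
    · rw [← h3, Units.val_mul]
      rfl
  · rintro F hF ⟨A, h, hh, hP⟩ m hm
    refine main (A := A) (lam := lam) hp hdet hlin hF hh ?_ hm
    rw [hP, Units.val_mul]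
    rfl

end Pool.Agent.Results.MP_5d33ca_ag.OneMotiveTorsors
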